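import Pool.Agent.Helper89.A8.StmtsMT
import Pool.Agent.Helper40.A8.M18

/-!
# A8-M19d: the structure theorem for pairings, the case where the bottom of the value module is `L`
(author: helper34)
-/

set_option autoImplicit false

namespace Pool.Agent.A8

open Submodule

/-- `X` is generated by the images of the homomorphisms `M → X` -/
def m19d_Gn (M X : Type*) [AddCommGroup M] [Module RG M] [AddCommGroup X] [Module RG X] : Prop :=
  ∀ N : Submodule RG X, (∀ (f : M →ₗ[RG] X) (m : M), f m ∈ N) → N = ⊤

section gen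
variable {M X X' : Type*} [AddCommGroup M] [Module RG M] [AddCommGroup X] [Module RG X]
  [AddCommGroup X'] [Module RG X']

theorem m19d_gn_surj (h : m19d_Gn M X) (f : X →ₗ[RG] X') (hf : Function.Surjective f) :
    m19d_Gn M X' := by
  intro N hN
  have h1 : N.comap f = ⊤ := h _ (fun k m => hN (f.comp k) m)
  rw [eq_top_iff]
  intro x _
  obtain ⟨y, rfl⟩ := hf x
  have : y ∈ N.comap f := by rw [h1]; trivial
  exact this

theorem m19d_gn_of_hg (hs : IsSimpleModule RG M) [Finite X] [Finite M] (h : Hg M X) :
    m19d_Gn M X := by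
  classical
  have hfinite : Finite (X →ₗ[RG] M) := Finite.of_injective (fun f => (f : X → M))
    DFunLike.coe_injective
  let ev : X →ₗ[RG] ((X →ₗ[RG] M) → M) := LinearMap.pi (fun f => f)
  have hev : Function.Injective ev := by
    rw [← LinearMap.ker_eq_bot, LinearMap.ker_eq_bot']
    intro x hx
    exact h x (fun f => congrFun hx f)
  have hss : IsSemisimpleModule RG X := IsSemisimpleModule.of_injective ev hev
  intro N hN
  rw [eq_top_iff, ← IsSemisimpleModule.sSup_simples_eq_top (R := RG) (M := X)]
  apply sSup_le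
  intro S hS
  have hS' : IsSimpleModule RG S := hS
  have hnt : Nontrivial S := IsSimpleModule.nontrivial RG S
  obtain ⟨t, ht⟩ := exists_ne (0 : S)
  obtain ⟨f, hf⟩ : ∃ f : X →ₗ[RG] M, f (t : X) ≠ 0 := by
    by_contra hcon
    push Not at hcon
    exact ht (Subtype.ext (h _ hcon))
  let g : S →ₗ[RG] M := f.comp S.subtype
  have hg0 : g ≠ 0 := by
    intro h0
    apply hf
    change g t = 0
    rw [h0]; rfl
  have hb := LinearMap.bijective_of_ne_zero hg0
  let e : S ≃ₗ[RG] M := LinearEquiv.ofBijective g hb
  intro s hs'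
  have h1 := hN (S.subtype.comp e.symm.toLinearMap) (e ⟨s, hs'⟩)
  have h2 : (S.subtype.comp e.symm.toLinearMap) (e ⟨s, hs'⟩) = s := by
    change ((e.symm (e ⟨s, hs'⟩) : S) : X) = s
    rw [LinearEquiv.symm_apply_apply]
  rwa [h2] at h1

theorem m19d_hg_of_gn (hs : IsSimpleModule RG M) [Finite X] (h : m19d_Gn M X) : Hg M X := by
  classical
  have hsup : ⨆ f : M →ₗ[RG] X, LinearMap.range f = ⊤ :=
    h _ (fun f m => Submodule.mem_iSup_of_mem f ⟨m, rfl⟩)
  have hMss : IsSemisimpleModule RG M := inferInstance
  have hss : IsSemisimpleModule RG X :=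
    isSemisimpleModule_of_isSemisimpleModule_submodule' (p := fun f : M →ₗ[RG] X =>
      LinearMap.range f) (fun f => IsSemisimpleModule.range f) hsup
  have hK : rj M X = ⊥ := by
    rcases eq_bot_or_exists_atom_le (rj M X) with h0 | ⟨A, hA, hAK⟩
    · exact h0
    · exfalso
      have hAs : IsSimpleModule RG A := isSimpleModule_iff_isAtom.mpr hA
      obtain ⟨C, hC⟩ := exists_isCompl A
      let pr : X →ₗ[RG] A := Submodule.projectionOnto A C hC
      have hnt : Nontrivial A := IsSimpleModule.nontrivial RG A
      obtain ⟨t, ht⟩ := exists_ne (0 : A)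
      have hprt : pr (t : X) = t := Submodule.projectionOnto_apply_left hC t
      obtain ⟨f, hf⟩ : ∃ f : M →ₗ[RG] X, pr.comp f ≠ 0 := by
        by_contra hcon
        push Not at hcon
        have h1 : LinearMap.ker pr = ⊤ := h _ (fun f m => by
          rw [LinearMap.mem_ker]
          exact LinearMap.congr_fun (hcon f) m)
        apply ht
        rw [← hprt]
        have : (t : X) ∈ LinearMap.ker pr := by rw [h1]; trivial
        exact this
      have hb := LinearMap.bijective_of_ne_zero hf
      let e : M ≃ₗ[RG] A := LinearEquiv.ofBijective _ hb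
      have h2 := mem_rj.1 (hAK t.2) (e.symm.toLinearMap.comp pr)
      apply ht
      have h3 : e.symm (pr (t : X)) = 0 := h2
      rw [hprt] at h3
      exact e.symm.injective (by rw [h3, map_zero])
  intro x hx
  have : x ∈ rj M X := mem_rj.2 hx
  rwa [hK, Submodule.mem_bot] at this

end gen

/-- values of a pairing of generated modules -/
theorem m19d_pair (h4 : S_GG) {a b c : Ty}
    (hc : ∀ (c' : Ty) (m : Md a → Md b → Md c'), Std3 a b c' m → c' = c)
    {X Y Z : Type} [AddCommGroup X] [Module RG X] [AddCommGroup Y] [Module RG Y]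
    [AddCommGroup Z] [Module RG Z] {p : X →+ Y →+ Z} (hp : Adm p)
    (hX : m19d_Gn (Md a) X) (hY : m19d_Gn (Md b) Y)
    (hZ : ∀ N : Submodule RG Z, (∀ x y, p x y ∈ N) → N = ⊤) : m19d_Gn (Md c) Z := by
  intro N hN
  apply hZ
  have h1 : kL hp N = ⊤ := by
    apply hX
    intro f m
    have hp' : Adm (pcomp f LinearMap.id LinearMap.id p) := pcomp_adm _ _ _ hp
    have h2 : kR hp' N = ⊤ := by
      apply hY
      intro g m' m''
      change p (f m'') (g m') ∈ N
      rcases h4 a b Z (pcomp f g LinearMap.id p) (pcomp_adm _ _ _ hp) with h0 | ⟨c', mm, k, hm, hk⟩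
      · have := h0 m'' m'
        change p (f m'') (g m') = 0 at this
        rw [this]; exact N.zero_mem
      · have h3 := hk m'' m'
        change p (f m'') (g m') = k (mm m'' m') at h3
        rw [h3]
        have := hc c' mm hm
        subst this
        exact hN k _
    intro y
    have : y ∈ kR hp' N := by rw [h2]; trivial
    exact this m
  intro x y
  have : x ∈ kL hp N := by rw [h1]; trivial
  exact this y

theorem m19d_quot_rj {M Y : Type} [AddCommGroup M] [Module RG M] [AddCommGroup Y] [Module RG Y] :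
    Hg M (Y ⧸ rj M Y) := by
  intro y hy
  obtain ⟨y, rfl⟩ := Submodule.Quotient.mk_surjective _ y
  rw [Submodule.Quotient.mk_eq_zero, mem_rj]
  intro f
  have h1 : rj M Y ≤ LinearMap.ker f := fun z hz => mem_rj.1 hz f
  have := hy ((rj M Y).liftQ f h1)
  rwa [Submodule.liftQ_apply] at this

/-- **A8-M19d** -/
theorem bMTL (h1 : S_UNIV) (_h2 : S_UC) (h3 : S_UC') (h4 : S_GG) (h5 : S_M3E) (h6 : S_SIM)
    (h7 : S_END) : S_MTL := by
  classical
  intro X Y Z _ _ _ _ _ _ _ _ _ fX fY fZ hHX hHY p hp hL hR hspan M hM hMmin hX1 hY1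
  obtain ⟨eM⟩ := hM
  have hsL : IsSimpleModule RG ML := h6 .l
  have hsV : IsSimpleModule RG MV := h6 .v
  have hsD : IsSimpleModule RG MD := h6 .d
  have hMs : IsSimpleModule RG M := IsSimpleModule.congr eM
  -- step 1
  have hkL : kL hp M = ⊥ := by
    by_contra hne
    have hnt : Nontrivial (kL hp M) := Submodule.nontrivial_iff_ne_bot.2 hne
    let q : (kL hp M) →+ Y →+ Z := pcomp (kL hp M).subtype LinearMap.id LinearMap.id p
    have hq : Adm q := pcomp_adm _ _ _ hp
    have hqM : ∀ x y, q x y ∈ M := fun x y => x.2 y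
    obtain ⟨a, c, m, hm, ⟨e⟩⟩ := m18_key h1 h3 h6 h7 .l (kL hp M) Y M (fX.sub _) fY (fZ.sub _)
      hHY hMs (pcod q M hqM) (pcod_adm hq M hqM) (by
        intro x hx
        apply Subtype.ext
        apply hL
        intro y
        have := congrArg Subtype.val (hx y)
        exact this) hnt
    have hcl : c = .l := m18_iso_eq h6 h7 (e.symm.trans eM)
    subst hcl
    cases hm
  have hHgX : Hg MV X := by
    refine Hg.of_injective (kL hp M).mkQ ?_ hX1
    rw [← LinearMap.ker_eq_bot, Submodule.ker_mkQ, hkL]
  have hGX : m19d_Gn MV X := m19d_gn_of_hg hsV hHgX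
  -- step 2: `kR hp M` is a sum of `V`s
  have hYM : Hg MV (kR hp M) := by
    intro y hy
    apply Subtype.ext
    apply hR
    let q : X →+ (kR hp M) →+ Z := pcomp LinearMap.id (kR hp M).subtype LinearMap.id p
    have hq : Adm q := pcomp_adm _ _ _ hp
    -- use generation of `X`
    have key : ∀ (f : MV →ₗ[RG] X) (m : MV), p (f m) (y : Y) = 0 := by
      intro f m
      let r : MV →+ (kR hp M) →+ Z := pcomp f (kR hp M).subtype LinearMap.id p
      have hr : Adm r := pcomp_adm _ _ _ hp
      have hrM : ∀ x z, r x z ∈ M := fun x z => z.2 (f x)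
      let r' : MV →+ (kR hp M) →+ M := pcod r M hrM
      have hr' : Adm r' := pcod_adm hr M hrM
      by_cases htop : kR hr' ⊥ = ⊤
      · have : y ∈ kR hr' ⊥ := by rw [htop]; trivial
        have h8 := this m
        rw [Submodule.mem_bot] at h8
        exact congrArg Subtype.val h8
      · have hnt : Nontrivial ((kR hp M) ⧸ kR hr' ⊥) := Submodule.Quotient.nontrivial_iff.mpr htop
        have hfin := m18_fin (kR hr' ⊥)
        let eM0 : (M ⧸ (⊥ : Submodule RG M)) ≃ₗ[RG] ML := (Submodule.quotEquivOfEqBot _ rfl).trans eM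
        let s : MV →+ ((kR hp M) ⧸ kR hr' ⊥) →+ ML :=
          pcomp (kL hr' ⊥).mkQ LinearMap.id eM0.toLinearMap (qp hr' ⊥)
        obtain ⟨b, mm, β, hm, -⟩ := h3 .v .l ((kR hp M) ⧸ kR hr' ⊥) s (pcomp_adm _ _ _ (qp_adm hr' ⊥))
          (by
            intro z hz
            apply qp_perfR hr' ⊥
            intro x
            obtain ⟨x, rfl⟩ := Submodule.Quotient.mk_surjective _ x
            have := hz x
            change eM0 (qp hr' ⊥ (Submodule.Quotient.mk x) z) = 0 at this
            exact eM0.injective (by rw [this, map_zero]))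
        cases hm
        have h8 := hy (β.toLinearMap.comp (kR hr' ⊥).mkQ)
        change β (Submodule.Quotient.mk y) = 0 at h8
        have h9 : (Submodule.Quotient.mk y : (kR hp M) ⧸ kR hr' ⊥) = 0 :=
          β.injective (by rw [h8, map_zero])
        rw [Submodule.Quotient.mk_eq_zero] at h9
        have h10 := h9 m
        rw [Submodule.mem_bot] at h10
        exact congrArg Subtype.val h10
    -- `{x | p x (g y) = 0 for all g}` is a submodule
    let S0 : Submodule RG X := mkSub
        { carrier := {x : X | ∀ g : Gam, p x (act g (y : Y)) = 0}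
          zero_mem' := fun g => by rw [map_zero]; rfl
          add_mem' := fun {a b} ha hb g => by
            rw [map_add, AddMonoidHom.add_apply, ha, hb, add_zero]
          neg_mem' := fun {a} ha g => by
            rw [map_neg, AddMonoidHom.neg_apply, ha, neg_zero] }
        (fun g x hx k => by
          have h8 := hp.equiv g x (act (g⁻¹ * k) (y : Y))
          rw [hx, act_zero, ← act_mul, mul_inv_cancel_left] at h8
          exact h8)
    have hS : S0 = ⊤ := by
      apply hGX
      intro f m
      intro g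
      have h8 := hp.equiv g (f (act g⁻¹ m)) (y : Y)
      rw [key f (act g⁻¹ m), act_zero, ← map_act, act_act_inv] at h8
      exact h8
    intro x
    have h8 : x ∈ S0 := by rw [hS]; trivial
    have h9 := h8 1
    rwa [act_one] at h9
  -- step 3
  set N : Submodule RG Y := rj ML Y with hN
  have hNV : Hg MV N := by
    refine h5 .v (by decide) N ((kR hp M).comap N.subtype) ?_ ?_
    · let t : ((kR hp M).comap N.subtype : Submodule RG N) →ₗ[RG] (kR hp M) :=
        (N.subtype.comp ((kR hp M).comap N.subtype).subtype).codRestrict (kR hp M) (fun z => z.2)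
      refine Hg.of_injective t ?_ hYM
      intro a b hab
      have h8 := congrArg (fun z : kR hp M => (z : Y)) hab
      exact Subtype.ext (Subtype.ext h8)
    · have hmem : ∀ z : N, Submodule.Quotient.mk (z : Y) ∈ rj ML (Y ⧸ kR hp M) := by
        intro z
        rw [mem_rj]
        intro f
        exact mem_rj.1 z.2 (f.comp (kR hp M).mkQ)
      let t0 : N →ₗ[RG] rj ML (Y ⧸ kR hp M) :=
        ((kR hp M).mkQ.comp N.subtype).codRestrict _ hmem
      have ht0 : ((kR hp M).comap N.subtype : Submodule RG N) = LinearMap.ker t0 := by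
        ext z
        rw [LinearMap.mem_ker]
        constructor
        · intro hz
          apply Subtype.ext
          exact (Submodule.Quotient.mk_eq_zero _).2 hz
        · intro hz
          have h8 : (Submodule.Quotient.mk (z : Y) : Y ⧸ kR hp M) = 0 := congrArg Subtype.val hz
          exact (Submodule.Quotient.mk_eq_zero (kR hp M)).1 h8
      refine Hg.of_injective (((kR hp M).comap N.subtype).liftQ t0 ht0.le) ?_ hY1
      rw [← LinearMap.ker_eq_bot]
      exact Submodule.ker_liftQ_eq_bot _ _ _ ht0.ge
  have hGN : m19d_Gn MV N := m19d_gn_of_hg hsV hNV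
  -- step 4
  let q : X →+ N →+ Z := pcomp LinearMap.id N.subtype LinearMap.id p
  have hq : Adm q := pcomp_adm _ _ _ hp
  set A6 : Submodule RG Z := spn q with hA6
  have hqA : ∀ x y, q x y ∈ A6 := fun x y => mem_spn x y
  have hA6L : Hg ML A6 := by
    refine m19d_hg_of_gn hsL ?_
    refine m19d_pair h4 (a := .v) (b := .v) (c := .l) ?_ (pcod_adm hq A6 hqA) hGX hGN ?_
    · intro c' m hm
      cases hm
      rfl
    · intro N' hN'
      have h8 : A6 ≤ N'.map A6.subtype := spn_le (fun x y => ⟨pcod q A6 hqA x y, hN' x y, rfl⟩)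
      rw [eq_top_iff]
      intro z _
      obtain ⟨w, hw, hwz⟩ := h8 z.2
      have : w = z := Subtype.ext hwz
      rwa [← this]
  -- step 5
  have hZD : Hg MD (Z ⧸ A6) := by
    have hfin := m18_fin A6
    refine m19d_hg_of_gn hsD ?_
    have hGY : m19d_Gn ML (Y ⧸ kR hp A6) := by
      have hfinN := m18_fin N
      have h8 : m19d_Gn ML (Y ⧸ N) := m19d_gn_of_hg hsL m19d_quot_rj
      have hle : N ≤ kR hp A6 := fun y hy x => hqA x ⟨y, hy⟩
      refine m19d_gn_surj h8 (Submodule.factor hle) ?_
      intro z
      obtain ⟨y, rfl⟩ := Submodule.Quotient.mk_surjective _ z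
      exact ⟨Submodule.Quotient.mk y, rfl⟩
    have hGX' : m19d_Gn MV (X ⧸ kL hp A6) := m19d_gn_surj hGX _ (kL hp A6).mkQ_surjective
    refine m19d_pair h4 (a := .v) (b := .l) (c := .d) ?_ (qp_adm hp A6) hGX' hGY ?_
    · intro c' m hm
      cases hm
      rfl
    · intro N' hN'
      have h8 : N'.comap A6.mkQ = ⊤ := hspan _ (fun x y => by
        have := hN' (Submodule.Quotient.mk x) (Submodule.Quotient.mk y)
        rw [qp_mk] at this
        exact this)
      rw [eq_top_iff]
      intro z _
      obtain ⟨w, rfl⟩ := Submodule.Quotient.mk_surjective _ z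
      have : w ∈ N'.comap A6.mkQ := by rw [h8]; trivial
      exact this
  refine ⟨hHgX, hNV, ?_⟩
  have hle : rj MD Z ≤ A6 := by
    intro z hz
    rw [← Submodule.Quotient.mk_eq_zero A6]
    apply hZD
    intro f
    exact mem_rj.1 hz (f.comp A6.mkQ)
  refine Hg.of_injective (Submodule.inclusion hle) (Submodule.inclusion_injective hle) hA6L

end Pool.Agent.A8
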